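import Pool.Agent.H96.KX.Stmt2

/-!
# SETH for linear programs chosen after the formula: the statement (MP_c62aed_lc)
-/

namespace Pool.Agent.H91.AV

open Pool.Agent.H1.LP (Clause viol Relax)
open Filter Topology

/-- Linear programs from the family `P` of total size at most `S` refute the formula `phi` with
margin `de`: some of the cells are disjoint and cover the cube, for each of these cells the total
loss is at least `de` on the whole polyhedron, and the polyhedra of these cells have together
at most `S` inequalities (counting one more for each cell).  The choice may depend on `phi`. -/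
def RefutedBy {n M m : ℕ} (P : Fin M → Relax n) (phi : Fin m → Clause n) (de S : ℝ) : Prop :=
  ∃ J : Finset (Fin M), (∀ j ∈ J, ∀ j' ∈ J, j ≠ j' → Disjoint (P j).cell (P j').cell) ∧
    (∀ x, ∃ j ∈ J, x ∈ (P j).cell) ∧ (∀ j ∈ J, (P j).Refutes phi de) ∧
    ∑ j ∈ J, (((P j).size : ℝ) + 1) ≤ S

open Classical in
/-- Linear programs of size `2 ^ (c n)`, chosen after the formula from a family of total size
`2 ^ (C n)`, do not refute `k`-CNFs with `O(n)` clauses and with the gap `(1 - ε) / 2 ^ k`.
There are `K` and `γ > 0` such that for all large `n` there is a finite list of CNFs with `n`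
variables, at most `K n` clauses, all of width exactly `k`, every assignment violating at least
`(1 - ε) m / 2 ^ k` of the `m` clauses, with the property: for every family `P` of linear
programming relaxations on cells of the cube, of total size at most `2 ^ (C n)`, at most a fraction
`2 ^ (- γ n)` of the formulas of the list is refuted with margin `2 ^ (- γ n)` by linear programs
from `P` of total size at most `2 ^ (c n)`. -/
def HardA (k : ℕ) (ε c C : ℝ) : Prop :=
  ∃ (K : ℕ) (γ : ℝ), 0 < γ ∧ ∃ n₀ : ℕ, ∀ n : ℕ, n₀ ≤ n →
    ∃ (Y : ℕ) (m : Fin Y → ℕ) (phi : (a : Fin Y) → Fin (m a) → Clause n), 0 < Y ∧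
      (∀ a, 1 ≤ m a ∧ m a ≤ K * n ∧
        (∀ i, (phi a i).card = k ∧ ((phi a i).image Prod.fst).card = k) ∧
        ∀ x, (1 - ε) * ((m a : ℝ) / 2 ^ k) ≤ (viol (phi a) x : ℝ)) ∧
      ∀ (M : ℕ) (P : Fin M → Relax n),
        ∑ j, (((P j).size : ℝ) + 1) ≤ (2 : ℝ) ^ (C * n) →
        ((Finset.univ.filter (fun a => RefutedBy P (phi a) ((2 : ℝ) ^ (-(γ * n)))
          ((2 : ℝ) ^ (c * n)))).card : ℝ) ≤ (2 : ℝ) ^ (-(γ * n)) * Y

/-- The adaptive theorem: for every `ε > 0` and every `C` there is a width. -/
def StatementA : Prop :=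
  ∀ C ε : ℝ, 0 < ε → ∃ k : ℕ, HardA k ε (1 - ε) C

/-- ETH and SETH for linear programs with branch and bound: for every gap `ε > 0` there are
exponents `c k`, positive for all `k ≥ 3` and tending to `1`, and `C k ≥ c k`, tending to infinity,
such that linear programs of size `2 ^ (c k n)`, chosen after the formula from a family of total
size `2 ^ (C k n)`, do not refute `k`-CNFs with `n` variables and `O(n)` clauses, in which every
assignment violates a fraction at least `(1 - ε) / 2 ^ k` of the clauses. -/
def Statement3 : Prop :=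
  ∀ ε : ℝ, 0 < ε → ∃ c C : ℕ → ℝ, (∀ k, 3 ≤ k → 0 < c k ∧ c k ≤ C k) ∧ Tendsto c atTop (𝓝 1) ∧
    Tendsto C atTop atTop ∧ ∀ k, 3 ≤ k → HardA k ε (c k) (C k)

end Pool.Agent.H91.AV
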