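import Pool.Agent.H91.AV.Targets

/-! # MP_c62aed_lc, LP relaxations chosen after the formula: assembly of the core inequality
(helper91, after helper96) -/

namespace Pool.Agent.H91.AV

open Finset
open Pool.Agent.H1.LP (Clause viol Relax Loc Sys Agree supp ip kk)
open Pool.Agent.H96.KX (psz fac jun PDz prs)

theorem ip_cong {p B : ℕ} (l : Fin B → ZMod p) (T : Finset (Fin B)) (hl : supp l ⊆ T)
    (y z : Fin B → ZMod p) (h : ∀ j ∈ T, y j = z j) : ip l y = ip l z := by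
  unfold ip
  refine sum_congr rfl fun j _ => ?_
  by_cases hj : j ∈ T
  · rw [h j hj]
  · have : l j = 0 := by
      by_contra hne
      exact hj (hl (by simp [supp, hne]))
    rw [this, zero_mul, zero_mul]

/-- the factor of one pinned block -/
theorem fac_arith {p E L r : ℕ} (hp : 2 ^ (4 * E) < p) (hL : 3 ≤ L) (hr : 1 ≤ r)
    (hf : 2 ^ (2 * r + 1) * (2 * r).factorial ≤ 2 ^ (4 * E)) :
    ((p : ℝ) * (2 ^ (2 * r) * (2 * ((2 * r).factorial : ℝ) * (p : ℝ) ^ (2 * r)))) *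
      2 ^ (4 * E * r * (L - 3)) ≤ ((p : ℝ) ^ (L + 1)) ^ r := by
  have hp00 : 0 < p := lt_of_le_of_lt (Nat.zero_le _) hp
  obtain ⟨k, rfl⟩ : ∃ k, L = k + 3 := ⟨L - 3, by omega⟩
  rw [Nat.add_sub_cancel]
  have h1 : (2 : ℝ) ^ (2 * r + 1) * ((2 * r).factorial : ℝ) ≤ p := by
    have : 2 ^ (2 * r + 1) * (2 * r).factorial ≤ p := hf.trans hp.le
    exact_mod_cast this
  have h3 : ((2 : ℝ) ^ (4 * E)) ≤ p := by exact_mod_cast hp.le
  have hp1 : (1 : ℝ) ≤ p := by exact_mod_cast hp00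
  have h2 : (2 : ℝ) ^ (4 * E * r * k) ≤ (p : ℝ) ^ (r * k) := by
    rw [mul_assoc, pow_mul]
    gcongr
  calc ((p : ℝ) * (2 ^ (2 * r) * (2 * ((2 * r).factorial : ℝ) * (p : ℝ) ^ (2 * r)))) *
      2 ^ (4 * E * r * k)
      = (2 ^ (2 * r + 1) * ((2 * r).factorial : ℝ)) * (p : ℝ) ^ (2 * r + 1) *
        2 ^ (4 * E * r * k) := by ring
    _ ≤ p * (p : ℝ) ^ (2 * r + 1) * (p : ℝ) ^ (r * k) := by gcongr
    _ = (p : ℝ) ^ (2 * r + 2 + r * k) := by ring
    _ ≤ (p : ℝ) ^ ((k + 3 + 1) * r) := by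
        apply pow_le_pow_right₀ hp1
        nlinarith
    _ = ((p : ℝ) ^ (k + 3 + 1)) ^ r := by rw [pow_mul]

theorem pow_arith (x y z : ℝ) (d : ℕ) (hx : 0 ≤ x) (hy : 1 ≤ y) (hz : 0 < z) (h : x * y ≤ z) :
    (x / z) ^ (d + 1) * y ^ d ≤ 1 := by
  have h1 : x / z ≤ 1 := by
    rw [div_le_one hz]
    nlinarith
  have h2 : x / z * y ≤ 1 := by
    rw [div_mul_eq_mul_div, div_le_one hz]
    exact h
  calc (x / z) ^ (d + 1) * y ^ d = (x / z) * (x / z * y) ^ d := by ring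
    _ ≤ 1 * 1 := by
        apply mul_le_mul h1 _ (by positivity) zero_le_one
        exact pow_le_one₀ (by positivity) h2
    _ = 1 := by norm_num

theorem fin_arith (de2 Ac UB G m2 pB ka1 kt q2 HB W S2 big : ℝ) (hU : 0 < UB)
    (hkt : 0 ≤ kt) (hm2 : 0 ≤ m2) (hq2 : 0 ≤ q2) (hHB : 0 ≤ HB) (hW : 0 ≤ W) (hS : 0 ≤ S2)
    (hpk : 0 ≤ pB * ka1) (hG : 0 ≤ G) (har : kt * G ≤ 1) (hbig : pB * ka1 * q2 ≤ big)
    (key : de2 * Ac * UB ≤ 4 * m2 * (pB * (ka1 * kt * (q2 * UB * HB))) * W * S2) :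
    de2 * Ac * G ≤ 4 * m2 * big * W * S2 * HB := by
  have e1 : 4 * m2 * (pB * (ka1 * kt * (q2 * UB * HB))) * W * S2 =
      (4 * m2 * (pB * ka1 * q2) * kt * W * S2 * HB) * UB := by ring
  rw [e1] at key
  have key2 := le_of_mul_le_mul_right key hU
  have hbig0 : 0 ≤ big := le_trans (mul_nonneg hpk hq2) hbig
  calc de2 * Ac * G ≤ (4 * m2 * (pB * ka1 * q2) * kt * W * S2 * HB) * G := by gcongr
    _ = 4 * m2 * (pB * ka1 * q2) * W * S2 * HB * (kt * G) := by ring
    _ ≤ 4 * m2 * big * W * S2 * HB * 1 := by gcongr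
    _ = _ := by ring

theorem pf_CORE (hMO : S_MOM) (hBA : S_BALH) (hBP : S_BIP) (hBZ : S_BIZ) (hMA : S_MAS)
    (hPA : H96.KX.S_PDA) (hPP : H96.KX.S_PDP) (hAB : S_ABS) (hNP : H96.KX.S_NPR)
    (hFR : H96.KX.S_FRM) (hBL : H96.KX.S_BASEL)
    (hLO : Pool.Agent.H1.LP.S_LOC) (hEN : Pool.Agent.H1.LP.S_ENC) (hLP : Pool.Agent.H1.LP.S_LPC) :
    S_CORE := by
  classical
  intro E L r n B hE hL hr hfac hkB hBn
  have hkE : kk E = 2 * (4 * E + 1) * E ^ 2 := rfl
  have hkE1 : 1 ≤ kk E := by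
    rw [hkE]
    have : 0 < 2 * (4 * E + 1) * E ^ 2 := by positivity
    omega
  have hkE2 : E ≤ kk E := by
    rw [hkE]
    nlinarith
  have hB0 : 0 < B := by omega
  obtain ⟨p, hp, hplt, hple, T, Ys, hT, hsupp, hz⟩ := hBL E B (by omega) (by
    rw [← hkE]
    omega)
  have ht1 : 1 ≤ B / E := by
    rw [Nat.le_div_iff_mul_le (by omega)]
    omega
  have h8 : 16 * (B / E) ≤ B := by
    have h2 : E * (B / E) ≤ B := Nat.mul_div_le B E
    have h3 : 16 * (B / E) ≤ E * (B / E) := Nat.mul_le_mul_right _ hE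
    omega
  obtain ⟨S, hS⟩ := hLO p B (4 * E * B) (B / E) (B - 8 * (B / E)) Ys ht1
  have hT' : ∀ i, (T i).card = kk E := hT
  have hrow : ∀ i, Ys.A i ∈ S.La ∧ S.ga (Ys.A i) = Ys.be i := by
    intro i
    apply hS
    calc (supp (Ys.A i)).card ≤ (T i).card := card_le_card (hsupp i)
      _ = kk E := hT' i
      _ ≤ _ := by omega
  obtain ⟨b, hb⟩ : ∃ b, (4 * E + 1) * (L + 1) = b := ⟨_, rfl⟩
  simp only [hb] at hBn ⊢
  obtain ⟨asg, dec, cl, hda, hsat, hcard⟩ := hEN n B b hBn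
  have hpR : (p : ℝ) ≤ 2 ^ (4 * E + 1) := by exact_mod_cast hple
  have hpn0 : 0 < p := (Fact.out : p.Prime).pos
  have hNZ : NeZero p := ⟨hpn0.ne'⟩
  have hp0 : (0 : ℝ) < p := by exact_mod_cast hpn0
  have hp1 : (1 : ℝ) ≤ p := by exact_mod_cast (Fact.out : p.Prime).one_lt.le
  -- the embedding of the block values
  have hcV : Fintype.card (Fin L → ZMod p) = p ^ L := by
    rw [Fintype.card_fun, ZMod.card, Fintype.card_fin]
  have hcU : Fintype.card (ZMod p × (Fin L → ZMod p)) = p ^ (L + 1) := by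
    rw [Fintype.card_prod, hcV, ZMod.card, pow_succ, mul_comm]
  obtain ⟨Hn, hHn⟩ : ∃ Hn, Fintype.card ((Fin L → ZMod p) → ZMod p) = Hn := ⟨_, rfl⟩
  have hHn0 : 0 < Hn := by
    rw [← hHn]
    exact Fintype.card_pos
  obtain ⟨io⟩ : Nonempty ((ZMod p × (Fin L → ZMod p)) ↪ (Fin b → Bool)) := by
    apply Function.Embedding.nonempty_of_card_le
    rw [hcU, Fintype.card_fun, Fintype.card_bool, Fintype.card_fin, ← hb, pow_mul]
    exact Nat.pow_le_pow_left hple _
  set al : (Fin B → (Fin L → ZMod p) → ZMod p) → Fin B → (Fin b → Bool) → ZMod p := fun a j q =>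
    Function.extend io (hs p (Fin L → ZMod p) (a j)) (fun _ => 0) q with hal
  have hal' : ∀ a j u, al a j (io u) = hs p (Fin L → ZMod p) (a j) u := by
    intro a j u
    exact io.injective.extend_apply _ _ _
  have hform := fun a : Fin B → (Fin L → ZMod p) → ZMod p =>
    hFR p B (4 * E * B) b n T Ys.A Ys.be (al a) dec cl hsupp hsat
  choose m phi hm hphi hsum hviol using hform
  have hprs : (prs (b := b) T).card = 4 * E * B * 2 ^ (b * kk E) := hNP B (4 * E * B) b (kk E) T hT'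
  have hvlow : ∀ a y, (4 * E - 3) * B ≤ viol (phi a) y := by
    intro a y
    rw [hviol a y]
    exact hz _
  have hvm : ∀ a y, viol (phi a) y ≤ m a := by
    intro a y
    unfold viol
    refine (card_le_univ _).trans ?_
    rw [Fintype.card_fin]
  have hm1 : ∀ a, 1 ≤ m a := by
    intro a
    have := (hvlow a (fun _ => false)).trans (hvm a _)
    have h4 : 1 ≤ (4 * E - 3) * B := Nat.mul_pos (by omega) hB0
    omega
  have hm2 : ∀ a, m a ≤ 4 * E * B * 2 ^ (b * kk E) := by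
    intro a
    rw [← hprs]
    exact hm a
  obtain ⟨Yc, hYc⟩ : ∃ Yc, Fintype.card (Fin B → (Fin L → ZMod p) → ZMod p) = Yc := ⟨_, rfl⟩
  have hYc' : Yc = Hn ^ B := by
    rw [← hYc, Fintype.card_fun (α := Fin B), hHn, Fintype.card_fin]
  let e : Fin Yc ≃ (Fin B → (Fin L → ZMod p) → ZMod p) :=
    (Fintype.equivFinOfCardEq hYc).symm
  refine ⟨Yc, fun a => m (e a), fun a => phi (e a), ?_, ?_, ?_⟩
  · rw [hYc']
    positivity
  · intro a
    refine ⟨hm1 _, hm2 _, ?_, ?_⟩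
    · intro c
      obtain ⟨q, -, hq⟩ := hphi (e a) c
      show (phi (e a) c).card = b * kk E ∧ ((phi (e a) c).image Prod.fst).card = b * kk E
      rw [hq]
      have := hcard (T q.1) q.2
      rw [hT' q.1] at this
      rw [mul_comm (kk E)] at this
      exact this
    · intro y
      have h5 : ((m (e a) : ℝ) / 2 ^ (b * kk E)) ≤ 4 * E * B := by
        rw [div_le_iff₀ (by positivity)]
        exact_mod_cast hm2 (e a)
      have hE1 : (0 : ℝ) < E := by
        have : 0 < E := by omega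
        exact_mod_cast this
      have h6 : (0 : ℝ) ≤ 1 - 1 / (E : ℝ) := by
        have : 1 / (E : ℝ) ≤ 1 := by
          rw [div_le_one hE1]
          have : 1 ≤ E := by omega
          exact_mod_cast this
        linarith
      calc (1 - 1 / (E : ℝ)) * ((m (e a) : ℝ) / 2 ^ (b * kk E))
          ≤ (1 - 1 / (E : ℝ)) * (4 * E * B) := by gcongr
        _ = (4 * E - 4) * B := by field_simp
        _ ≤ (4 * E - 3) * B := by
            have : (0 : ℝ) ≤ B := Nat.cast_nonneg B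
            nlinarith
        _ = (((4 * E - 3) * B : ℕ) : ℝ) := by
            rw [Nat.cast_mul, Nat.cast_sub (by omega)]
            push_cast
            ring
        _ ≤ _ := by exact_mod_cast hvlow (e a) y
  -- the inequality
  intro M P A de S0 hde hSn hA
  set A' : Finset (Fin B → (Fin L → ZMod p) → ZMod p) := A.map e.toEmbedding with hA'
  have hA'c : A'.card = A.card := card_map _
  have hA'm : ∀ a ∈ A', RefutedBy P (phi a) de S0 := by
    intro a ha
    obtain ⟨i, hi, rfl⟩ := mem_map.1 ha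
    exact hA i hi
  -- the data of the abstract inequality
  let X := Fin B → ZMod p × (Fin L → ZMod p)
  let C := {q // q ∈ prs (b := b) T}
  let pt : X → (Fin n → Bool) := fun x => asg (fun j => io (x j))
  have hptd : ∀ x : X, dec (pt x) = fun j => io (x j) := fun x => hda _
  let inF : (Fin B → (Fin L → ZMod p) → ZMod p) → C → Prop := fun a c =>
    ip (Ys.A c.1.1) (H1.LP.val (al a) c.1.2) ≠ Ys.be c.1.1
  let sat : C → X → Prop := fun c x => (cl (T c.1.1) c.1.2).Sat (pt x)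
  obtain ⟨c0, hc0⟩ : ∃ c0 : ℝ, c0 = 2 * ((2 * r).factorial : ℝ) * (p : ℝ) ^ (2 * r) := ⟨_, rfl⟩
  have hc00 : 0 < c0 := by
    rw [hc0]
    positivity
  have hMI : MomInd (hs p (Fin L → ZMod p)) r c0 := by
    rw [hc0]
    exact hMO p (Fin L → ZMod p) r
  have hBal : Bal (hs p (Fin L → ZMod p)) := hBA p (Fin L → ZMod p)
  have hfa : ((p : ℝ) * (2 ^ (2 * r) * c0)) * 2 ^ (4 * E * r * (L - 3)) ≤
      ((p : ℝ) ^ (L + 1)) ^ r := by
    rw [hc0]
    exact fac_arith hplt hL hr hfac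
  have hcU' : ((Fintype.card (ZMod p × (Fin L → ZMod p)) : ℕ) : ℝ) = (p : ℝ) ^ (L + 1) := by
    rw [hcU]
    push_cast
    rfl
  have hQU : (Fintype.card (ZMod p) : ℝ) * (2 ^ (2 * r) * c0) ≤
      (Fintype.card (ZMod p × (Fin L → ZMod p)) : ℝ) ^ r := by
    rw [ZMod.card, hcU']
    refine le_trans ?_ hfa
    refine le_mul_of_one_le_right (by positivity) ?_
    exact one_le_pow₀ (by norm_num)
  obtain ⟨ka, hka⟩ : ∃ ka : ℝ, ka = ((p : ℝ) ^ B) ^ (2 * r) * kap ((Fin L → ZMod p) → ZMod p)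
    (ZMod p × (Fin L → ZMod p)) (ZMod p) r c0 B (B - 8 * (B / E) + 1) := ⟨_, rfl⟩
  have hka0 : 0 ≤ ka := by
    rw [hka]
    unfold kap
    positivity
  have hbix : ∀ (g : X → ℝ) (a : Fin B → (Fin L → ZMod p) → ZMod p),
      ∑ x, g x * PDz S (fun i => hs p (Fin L → ZMod p) (a i) (x i)) =
        bix (hs p (Fin L → ZMod p)) (PDz S) g a := fun f g => rfl
  have hmass : ∀ a : Fin B → (Fin L → ZMod p) → ZMod p,
      ∑ x : X, PDz S (fun i => hs p (Fin L → ZMod p) (a i) (x i)) = Fintype.card X := by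
    intro a
    have h1 := hMA ((Fin L → ZMod p) → ZMod p) (ZMod p × (Fin L → ZMod p)) (ZMod p)
      (hs p (Fin L → ZMod p)) hBal B (PDz S) a
    rw [(hPA p B _ S).2, ZMod.card] at h1
    have h2 : (p : ℝ) ^ B ≠ 0 := by positivity
    have h3 := mul_right_cancel₀ h2 h1
    rw [h3]
    show _ = ((Fintype.card (Fin B → ZMod p × (Fin L → ZMod p)) : ℕ) : ℝ)
    rw [Fintype.card_fun (α := Fin B), Fintype.card_fin]
    push_cast
    rfl
  have hres : ∀ a ∈ A', ∃ J : Finset (Fin M),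
      (∀ j ∈ J, ∀ j' ∈ J, j ≠ j' → Disjoint (P j).cell (P j').cell) ∧
      (∀ x, ∃ j ∈ J, x ∈ (P j).cell) ∧ (∀ j ∈ J, (P j).Refutes (phi a) de) ∧
      ∑ j ∈ J, (((P j).size : ℝ) + 1) ≤ S0 := hA'm
  choose! J hJ1 hJ2 hJ3 hJ4 using hres
  have hlp : ∀ (a : Fin B → (Fin L → ZMod p) → ZMod p) (j : Fin M),
      ∃ (lam : Fin (P j).size → ℝ) (lam0 : ℝ),
      0 ≤ lam0 ∧ (∀ i, 0 ≤ lam i) ∧ (a ∈ A' → j ∈ J a → ∀ x ∈ (P j).cell,
        ∑ i, (P j).loss (phi a i) ((P j).pt x) - de =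
          lam0 + ∑ i, lam i * ((P j).b i - ∑ k, (P j).A i k * (P j).pt x k)) := by
    intro a j
    by_cases h : a ∈ A' ∧ j ∈ J a ∧ (P j).cell.Nonempty
    · obtain ⟨lam, lam0, h0, h1, h2⟩ := hLP n (m a) (P j) (phi a) de h.2.2 (hJ3 a h.1 j h.2.1)
      exact ⟨lam, lam0, h0, h1, fun _ _ => h2⟩
    · refine ⟨fun _ => 0, 0, le_rfl, fun _ => le_rfl, ?_⟩
      intro ha hj x hx
      exact absurd ⟨ha, hj, ⟨x, hx⟩⟩ h
  choose lam lam0 hl0 hl1 hl2 using hlp
  have key := hAB X (Fin B → (Fin L → ZMod p) → ZMod p) C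
    (fun a x => PDz S (fun i => hs p (Fin L → ZMod p) (a i) (x i))) ka r inF sat hr hka0 hmass
    (by
      intro g hg
      obtain ⟨T0, hT1, hT2, hT3⟩ := hBP _ _ _ (hs p (Fin L → ZMod p)) r c0 hr hc00 hMI hQU B
        (B - 8 * (B / E) + 1) (PDz S) ((p : ℝ) ^ B) (hPA p B _ S).1 (by
          intro τ hτ
          exact (hPP p B _ S τ (by omega)).1) g hg
      refine ⟨T0, hT1, hT2, ?_⟩
      rw [hka]
      exact hT3)
    (by
      intro c g hg hg1
      obtain ⟨T0, hT1, hT2, hT3⟩ := hBZ _ _ _ (hs p (Fin L → ZMod p)) r c0 hr hc00 hMI hQU B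
        (B - 8 * (B / E) + 1) (PDz S) ((p : ℝ) ^ B)
        (fun z => ip (Ys.A c.1.1) z ≠ Ys.be c.1.1) (hPA p B _ S).1 (by
          intro τ hτ hW
          refine (hPP p B _ S τ (by omega)).2 (Ys.A c.1.1) (hrow _).1 ?_
          intro z hz1
          rw [(hrow c.1.1).2]
          exact hW z hz1) g hg
      refine ⟨T0, hT1, ?_, ?_⟩
      · intro a ha
        rw [hbix]
        refine hT2 a ?_
        intro x hx
        have h2 := hg1 x hx
        have h3 : Agree (T c.1.1) (fun j => io (x j)) c.1.2 := by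
          have h4 : ¬ (cl (T c.1.1) c.1.2).Sat (pt x) := h2
          rw [hsat, not_not, hptd] at h4
          exact h4
        intro h5
        apply ha
        rw [← h5]
        apply ip_cong _ _ (hsupp _)
        intro j hj
        show al a j (c.1.2 j) = _
        rw [← h3 j hj, hal']
      · rw [hka]
        exact hT3)
    M A' J (fun j => {x : X | pt x ∈ (P j).cell}) (fun j => (P j).size)
    (fun j i x => (P j).b i - ∑ k, (P j).A i k * (P j).pt (pt x) k) lam lam0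
    (fun j c x => (P j).loss (cl (T c.1.1) c.1.2) ((P j).pt (pt x))) de S0
    (fun a => univ.filter (inF a)) hde hSn
    (by
      intro a c
      rw [mem_filter]
      exact ⟨fun h => h.2, fun h => ⟨mem_univ _, h⟩⟩)
    (by
      intro a ha x
      obtain ⟨j, hj, hx⟩ := hJ2 a ha (pt x)
      exact ⟨j, hj, hx⟩)
    (by
      intro a ha j hj j' hj' hne
      rw [Set.disjoint_left]
      intro x hx hx'
      exact (Finset.disjoint_left.1 (hJ1 a ha j hj j' hj' hne)) hx hx')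
    (by
      intro j i x hx
      have := (P j).feas (pt x) hx i
      linarith)
    (fun a j i => hl1 a j i) (fun a j => hl0 a j)
    (by
      intro j c x hx
      exact (P j).bdd (pt x) hx _)
    (by
      intro j c x hx hs
      exact (P j).sound (pt x) hx _ hs)
    (by
      intro a ha j hj x hx
      have h1 := hl2 a j ha hj (pt x) hx
      rw [hsum a (fun Cl => (P j).loss Cl ((P j).pt (pt x)))] at h1
      rw [← h1]
      congr 1
      rw [Finset.sum_filter, Finset.sum_filter]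
      exact Finset.sum_coe_sort (prs (b := b) T) (fun q : Fin (4 * E * B) × (Fin B → Fin b → Bool)
        => if ip (Ys.A q.1) (H1.LP.val (al a) q.2) ≠ Ys.be q.1 then
          (P j).loss (cl (T q.1) q.2) ((P j).pt (pt x)) else 0))
    (fun a ha => hJ4 a ha)
  -- cleaning up
  have hcX : ((Fintype.card X : ℕ) : ℝ) = ((p : ℝ) ^ (L + 1)) ^ B := by
    show ((Fintype.card (Fin B → ZMod p × (Fin L → ZMod p)) : ℕ) : ℝ) = _
    rw [Fintype.card_fun (α := Fin B), Fintype.card_fin, hcU]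
    push_cast
    rfl
  have hcC : ((Fintype.card C : ℕ) : ℝ) = 4 * E * B * 2 ^ (b * kk E) := by
    show ((Fintype.card {q // q ∈ prs (b := b) T} : ℕ) : ℝ) = _
    rw [Fintype.card_coe, hprs]
    push_cast
    rfl
  have hka2 : ka = ((p : ℝ) ^ B) ^ (2 * r) * (((p : ℝ) + 1) ^ (2 * r * B) *
      (((p : ℝ) * (2 ^ (2 * r) * c0)) / ((p : ℝ) ^ (L + 1)) ^ r) ^ (B - 8 * (B / E) + 1) *
      (2 ^ B * ((((p : ℝ) ^ (L + 1)) ^ B) ^ r) * (Hn : ℝ) ^ B)) := by
    rw [hka]
    unfold kap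
    rw [ZMod.card, hcU', hHn, mul_pow, mul_pow, ← pow_mul ((p : ℝ) ^ (L + 1)) r B,
      ← pow_mul ((p : ℝ) ^ (L + 1)) B r, mul_comm r B]
  rw [hA'c, hcX, hcC, hka2] at key
  have hYR : (Yc : ℝ) = (Hn : ℝ) ^ B := by
    rw [hYc']
    push_cast
    rfl
  rw [hYR]
  have hW0 : 0 ≤ ∑ j, (((P j).size : ℝ) + 1) := by positivity
  have har := pow_arith ((p : ℝ) * (2 ^ (2 * r) * c0)) (2 ^ (4 * E * r * (L - 3)))
    (((p : ℝ) ^ (L + 1)) ^ r) (B - 8 * (B / E)) (by positivity) (one_le_pow₀ (by norm_num))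
    (by positivity) hfa
  rw [← pow_mul 2 (4 * E * r * (L - 3)) (B - 8 * (B / E))] at har
  have hbig : ((p : ℝ) ^ B) ^ (2 * r) * ((p : ℝ) + 1) ^ (2 * r * B) * 2 ^ B ≤
      2 ^ (2 * r * B * (8 * E + 3) + B) := by
    have h1 : (p : ℝ) + 1 ≤ 2 ^ (4 * E + 2) := by
      have : (1 : ℝ) ≤ 2 ^ (4 * E + 1) := one_le_pow₀ (by norm_num)
      rw [pow_succ]
      linarith
    calc ((p : ℝ) ^ B) ^ (2 * r) * ((p : ℝ) + 1) ^ (2 * r * B) * 2 ^ B
        ≤ ((2 ^ (4 * E + 1)) ^ B) ^ (2 * r) * (2 ^ (4 * E + 2)) ^ (2 * r * B) * 2 ^ B := by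
          gcongr
      _ = 2 ^ (2 * r * B * (8 * E + 3) + B) := by
          rw [← pow_mul, ← pow_mul, ← pow_mul, ← pow_add, ← pow_add]
          congr 1
          ring
  exact fin_arith (de ^ (2 * r)) A.card ((((p : ℝ) ^ (L + 1)) ^ B) ^ r) _
    ((4 * E * B * 2 ^ (b * kk E)) ^ 2) (((p : ℝ) ^ B) ^ (2 * r)) (((p : ℝ) + 1) ^ (2 * r * B))
    _ (2 ^ B) ((Hn : ℝ) ^ B) _ _ _ (by positivity) (by positivity) (by positivity)
    (by positivity) (by positivity) hW0 (by positivity) (by positivity) (by positivity)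
    har hbig key

end Pool.Agent.H91.AV
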