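import Pool.Agent.H91.AV.Targets

/-! # MP_c62aed_lc, LP relaxations chosen after the formula: the theorem from the core (helper91) -/

namespace Pool.Agent.H91.AV

open Finset
open Pool.Agent.H1.LP (Clause viol Relax Loc Sys Agree supp ip kk)

theorem pf_FIN (hC : S_CORE) (hP : S_PARM) : StatementA := by
  classical
  intro C ε hε
  obtain ⟨E, L, r, K, γ, hE, hL, hr, hfac, hEε, hγ, n₀, hn⟩ := hP C ε hε
  refine ⟨(4 * E + 1) * (L + 1) * kk E, K, γ, hγ, n₀, fun n hn0 => ?_⟩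
  obtain ⟨B, hkB, hBn, hKn, hpar⟩ := hn n hn0
  obtain ⟨Y, m, phi, hY, h1, h2⟩ := hC E L r n B hE hL hr hfac hkB hBn
  refine ⟨Y, m, phi, hY, ?_, ?_⟩
  · intro a
    obtain ⟨g1, g2, g3, g4⟩ := h1 a
    refine ⟨g1, g2.trans hKn, g3, fun x => le_trans ?_ (g4 x)⟩
    gcongr
  · intro M P hW
    have h3 := h2 M P (univ.filter (fun a => RefutedBy P (phi a) ((2 : ℝ) ^ (-(γ * n)))
      ((2 : ℝ) ^ ((1 - ε) * n)))) ((2 : ℝ) ^ (-(γ * n))) ((2 : ℝ) ^ ((1 - ε) * n)) (by positivity)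
      (by positivity) (fun a ha => (mem_filter.1 ha).2)
    refine hpar (∑ j, (((P j).size : ℝ) + 1)) _ Y (Nat.cast_nonneg Y) (by positivity) hW ?_
    exact h3

theorem pf_MONO : S_MONO := by
  classical
  rintro k ε c ⟨K, γ, hγ, n₀, h⟩
  refine ⟨K, γ, hγ, n₀, fun n hn => ?_⟩
  obtain ⟨Y, m, phi, hY, h1, h2⟩ := h n hn
  refine ⟨Y, m, phi, hY, h1, fun M P hP => le_trans ?_ (h2 M P hP)⟩
  have hsub : (univ.filter (fun a => RefutedBy P (phi a) ((2 : ℝ) ^ (-(γ * n)))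
      ((2 : ℝ) ^ (c * n)))) ⊆ univ.filter (fun a => Pool.Agent.H96.KX.Refuted P (phi a)
        ((2 : ℝ) ^ (-(γ * n)))) := by
    intro a ha
    rw [mem_filter] at ha ⊢
    obtain ⟨_, J, hJ1, hJ2, hJ3, -⟩ := ha
    exact ⟨mem_univ _, J, hJ1, hJ2, hJ3⟩
  exact_mod_cast card_le_card hsub

end Pool.Agent.H91.AV
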