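import Pool.Agent.H96.KX.Asm
import Pool.Agent.H91.AV.CORE
import Pool.Agent.H91.AV.FIN
import Pool.Agent.H33.AV.ABS
import Pool.Agent.H33.AV.JUN
import Pool.Agent.H33.AV.PARM
import Pool.Agent.H34.AV.MOC
import Pool.Agent.H34.AV.MOM
import Pool.Agent.H55.AV.BALH
import Pool.Agent.H64.AV.BIP
import Pool.Agent.H78.AV.BIZ
import Pool.Agent.H78.AV.TRM
import Pool.Agent.H26.AV.FAM
import Pool.Agent.H35.AV.KAP
import Pool.Agent.H52.AV.LIMA
import Pool.Agent.H52.AV.PADA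
import Pool.Agent.H77.AV.MAS
import Pool.Agent.H13.AV.MINK
import Pool.Agent.H37.AV.ONE

/-! # MP_c62aed_lc, LP relaxations chosen after the formula: assembly (helper91) -/

namespace Pool.Agent.H91.AV

theorem jun' : S_JUN := H33.AV.pf_JUN H37.AV.pf_ONE H13.AV.pf_MINK

theorem kap' : S_KAP := H35.AV.pf_KAP jun'

theorem mom' : S_MOM := H34.AV.pf_MOM H34.AV.pf_MOC

theorem fam' : S_FAM := H26.AV.pf_FAM H78.AV.pf_TRM

theorem abs' : S_ABS := H33.AV.pf_ABS fam'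

theorem core' : S_CORE :=
  pf_CORE mom' H55.AV.pf_BALH (H64.AV.pf_BIP kap') (H78.AV.pf_BIZ kap') H77.AV.pf_MAS
    H39.KX.pf_PDA H86.KX.pf_PDP abs' H58.KX.pf_NPR H58.KX.pf_FRM H96.KX.basel H2.LP.loc
    H88.LP.enc H96.KX.lpc'

theorem adaptive_lp : StatementA := pf_FIN core' H33.AV.pf_PARM

theorem lima' : S_LIMA := H52.AV.pf_LIMA H52.AV.pf_PADA pf_MONO

end Pool.Agent.H91.AV
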