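import Pool.Agent.H96.KX.Targets2
import Pool.Agent.H91.AV.Stmt

/-!
# MP_c62aed_lc: LP relaxations chosen after the formula: definitions and targets (helper91)

`H` = tables (of one block), `U` = block values, `Z` = outer alphabet, `h : H → U → Z`.
`a : Fin N → H`, `x : Fin N → U`, outer point `fun i => h (a i) (x i)`.  In the application
`U = ZMod p × V`, `H = (V → ZMod p)` (ALL functions), `h s (z, v) = z + s v`.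
Sums are not normalised.  `psz`, `fac`, `jun`, `PDz`, `prs` are those of `Pool.Agent.H96.KX`.
-/

namespace Pool.Agent.H91.AV

open Finset
open Pool.Agent.H1.LP (Clause viol Relax Loc Sys Agree supp ip kk)
open Pool.Agent.H96.KX (psz fac jun PDz prs)

/-- all hash functions `(z, v) ↦ z + s v` -/
def hs (p : ℕ) (V : Type) (s : V → ZMod p) (u : ZMod p × V) : ZMod p := u.1 + s u.2

/-- balanced hash functions -/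
def Bal {H U Z : Type} [Fintype U] [DecidableEq Z] [Fintype Z] (h : H → U → Z) : Prop :=
  ∀ a z, (univ.filter (fun u => h a u = z)).card * Fintype.card Z = Fintype.card U

/-- `2 r`-th moments over the table -/
def MomInd {H U Z : Type} [Fintype H] [Fintype U] [Fintype Z] [DecidableEq Z] (h : H → U → Z)
    (r : ℕ) (c : ℝ) : Prop :=
  ∀ g : U → ℝ, (∀ u, 0 ≤ g u) → ∀ θ : Z,
    ∑ a, ((Fintype.card Z : ℝ) * (∑ u, if h a u = θ then g u else 0) - ∑ u, g u) ^ (2 * r) ≤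
      Fintype.card H * c * (∑ u, g u ^ 2) ^ r

/-- `∑_x g x ∏_i Q 1[z i = h (a i) (x i)]` -/
def rhx {H U Z : Type} [Fintype U] [Fintype Z] [DecidableEq Z] (h : H → U → Z) {N : ℕ}
    (g : (Fin N → U) → ℝ) (a : Fin N → H) (z : Fin N → Z) : ℝ :=
  ∑ x, g x * jun (fun i => some (h (a i) (x i))) z

/-- `∑_x g x D (h_a x)` -/
def bix {H U Z : Type} [Fintype U] (h : H → U → Z) {N : ℕ}
    (D : (Fin N → Z) → ℝ) (g : (Fin N → U) → ℝ) (a : Fin N → H) : ℝ :=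
  ∑ x, g x * D (fun i => h (a i) (x i))

/-- the constant of the tail of the decomposition -/
noncomputable def kap (H U Z : Type) [Fintype H] [Fintype U] [Fintype Z] (r : ℕ) (c : ℝ)
    (N t : ℕ) : ℝ :=
  ((Fintype.card Z : ℝ) + 1) ^ (2 * r * N) *
    ((Fintype.card Z * (2 ^ (2 * r) * c)) / (Fintype.card U : ℝ) ^ r) ^ t *
    (2 * (Fintype.card U : ℝ) ^ r * Fintype.card H) ^ N

/-! ## one block -/

/-- MOC: moments of a sum of independent bounded variables of mean zero -/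
def S_MOC : Prop :=
  ∀ (V Z : Type) [Fintype V] [DecidableEq V] [Fintype Z] (r : ℕ)
    (X : V → Z → ℝ) (c : V → ℝ),
    (∀ v, ∑ z, X v z = 0) → (∀ v z, |X v z| ≤ c v) →
    ∑ s : V → Z, (∑ v, X v (s v)) ^ (2 * r) ≤
      (Fintype.card Z : ℝ) ^ Fintype.card V * (2 * ((2 * r).factorial : ℝ)) *
        (∑ v, c v ^ 2) ^ r

/-- MOM: `S_MOC → S_MOM` -/
def S_MOM : Prop :=
  ∀ (p : ℕ) [NeZero p] (V : Type) [Fintype V] [DecidableEq V] (r : ℕ),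
    MomInd (hs p V) r (2 * ((2 * r).factorial : ℝ) * (p : ℝ) ^ (2 * r))

/-- BALH -/
def S_BALH : Prop :=
  ∀ (p : ℕ) [NeZero p] (V : Type) [Fintype V], Bal (hs p V)

/-- ONE: one coordinate.  `V a θ = Q ∑_u g u 1[h a u = θ]`, `mu a = min_θ V a θ`. -/
def S_ONE : Prop :=
  ∀ (H U Z : Type) [Fintype H] [Fintype U] [Fintype Z] [DecidableEq Z] [Nonempty Z]
    (h : H → U → Z) (r : ℕ) (c : ℝ), 1 ≤ r → MomInd h r c →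
    ∀ (g : U → ℝ) (V : H → Z → ℝ) (mu : H → ℝ), (∀ u, 0 ≤ g u) →
    (∀ a θ, V a θ = (Fintype.card Z : ℝ) * ∑ u, if h a u = θ then g u else 0) →
    (∀ a θ, mu a ≤ V a θ) → (∀ a, ∃ θ, mu a = V a θ) →
    (∀ a, mu a ^ 2 ≤ (Fintype.card U : ℝ) * ∑ u, g u ^ 2) ∧
    ∀ θ, ∑ a, (((V a θ - mu a) / Fintype.card Z) ^ 2) ^ r ≤
      (Fintype.card H : ℝ) * (2 ^ (2 * r) * c) * (∑ u, g u ^ 2) ^ r

/-- MINK: the triangle inequality -/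
def S_MINK : Prop :=
  ∀ (A X : Type) [Fintype A] [Fintype X] (r : ℕ) (C : ℝ) (u : X → A → ℝ) (n : X → ℝ), 1 ≤ r →
    (∀ x a, 0 ≤ u x a) → (∀ x, 0 ≤ n x) → (∀ x, ∑ a, u x a ^ r ≤ C * n x ^ r) →
    ∑ a, (∑ x, u x a) ^ r ≤ C * (∑ x, n x) ^ r

/-! ## the junta decomposition -/

/-- JUN: `S_ONE → S_MINK → S_JUN` -/
def S_JUN : Prop :=
  ∀ (H U Z : Type) [Fintype H] [Fintype U] [Fintype Z] [DecidableEq Z] [Nonempty Z]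
    (h : H → U → Z) (r : ℕ) (c : ℝ), 1 ≤ r → MomInd h r c →
    ∀ (N : ℕ) (g : (Fin N → U) → ℝ), (∀ x, 0 ≤ g x) →
    ∃ w : (Fin N → H) → (Fin N → Option Z) → ℝ, (∀ a τ, 0 ≤ w a τ) ∧
      (∀ a z, rhx h g a z = ∑ τ, w a τ * jun τ z) ∧
      ∀ lam : ℝ, 0 ≤ lam → 0 ≤ c → ∑ a, ∑ τ, lam ^ psz τ * w a τ ^ (2 * r) ≤
        ((Fintype.card U : ℝ) ^ r + lam * (Fintype.card Z * (2 ^ (2 * r) * c))) ^ N *
          (Fintype.card H : ℝ) ^ N * (∑ x, g x ^ 2) ^ r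

/-- KAP: `S_JUN → S_KAP` -/
def S_KAP : Prop :=
  ∀ (H U Z : Type) [Fintype H] [Fintype U] [Fintype Z] [DecidableEq Z] [Nonempty Z]
    (h : H → U → Z) (r : ℕ) (c : ℝ), 1 ≤ r → 0 < c → MomInd h r c →
    Fintype.card Z * (2 ^ (2 * r) * c) ≤ (Fintype.card U : ℝ) ^ r →
    ∀ (N t : ℕ) (g : (Fin N → U) → ℝ), (∀ x, 0 ≤ g x) →
    ∃ w : (Fin N → H) → (Fin N → Option Z) → ℝ, (∀ a τ, 0 ≤ w a τ) ∧
      (∀ a z, rhx h g a z = ∑ τ, w a τ * jun τ z) ∧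
      ∑ a, (∑ τ with t ≤ psz τ, w a τ) ^ (2 * r) ≤ kap H U Z r c N t * (∑ x, g x ^ 2) ^ r

/-- BIP: `S_KAP → S_BIP` -/
def S_BIP : Prop :=
  ∀ (H U Z : Type) [Fintype H] [Fintype U] [Fintype Z] [DecidableEq Z] [Nonempty Z]
    (h : H → U → Z) (r : ℕ) (c : ℝ), 1 ≤ r → 0 < c → MomInd h r c →
    Fintype.card Z * (2 ^ (2 * r) * c) ≤ (Fintype.card U : ℝ) ^ r →
    ∀ (N t : ℕ) (D : (Fin N → Z) → ℝ) (Mx : ℝ), (∀ z, |D z| ≤ Mx) →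
    (∀ τ : Fin N → Option Z, psz τ < t → 0 ≤ ∑ z, jun τ z * D z) →
    ∀ (g : (Fin N → U) → ℝ), (∀ x, 0 ≤ g x) →
    ∃ T : (Fin N → H) → ℝ, (∀ a, 0 ≤ T a) ∧ (∀ a, -(T a) ≤ bix h D g a) ∧
      ∑ a, T a ^ (2 * r) ≤ Mx ^ (2 * r) * kap H U Z r c N t * (∑ x, g x ^ 2) ^ r

/-- BIZ: `S_KAP → S_BIZ` -/
def S_BIZ : Prop :=
  ∀ (H U Z : Type) [Fintype H] [Fintype U] [Fintype Z] [DecidableEq Z] [Nonempty Z]
    (h : H → U → Z) (r : ℕ) (c : ℝ), 1 ≤ r → 0 < c → MomInd h r c →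
    Fintype.card Z * (2 ^ (2 * r) * c) ≤ (Fintype.card U : ℝ) ^ r →
    ∀ (N t : ℕ) (D : (Fin N → Z) → ℝ) (Mx : ℝ) (W : (Fin N → Z) → Prop), (∀ z, |D z| ≤ Mx) →
    (∀ τ : Fin N → Option Z, psz τ < t → (∀ z, jun τ z ≠ 0 → W z) → ∑ z, jun τ z * D z = 0) →
    ∀ (g : (Fin N → U) → ℝ), (∀ x, 0 ≤ g x) →
    ∃ T : (Fin N → H) → ℝ, (∀ a, 0 ≤ T a) ∧
      (∀ a, (∀ x, g x ≠ 0 → W (fun i => h (a i) (x i))) → |bix h D g a| ≤ T a) ∧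
      ∑ a, T a ^ (2 * r) ≤ Mx ^ (2 * r) * kap H U Z r c N t * (∑ x, g x ^ 2) ^ r

/-- MAS: total mass -/
def S_MAS : Prop :=
  ∀ (H U Z : Type) [Fintype U] [Fintype Z] [DecidableEq Z] (h : H → U → Z), Bal h →
    ∀ (N : ℕ) (D : (Fin N → Z) → ℝ) (a : Fin N → H),
    (∑ x : Fin N → U, D (fun i => h (a i) (x i))) * (Fintype.card Z : ℝ) ^ N =
      (Fintype.card U : ℝ) ^ N * ∑ z, D z

/-! ## the abstract inequality -/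

/-- TRM: one term -/
def S_TRM : Prop :=
  ∀ (Y : Type) [Fintype Y] (r : ℕ) (f T : Y → ℝ) (Fm ka g θ ρ : ℝ), 1 ≤ r → (∀ a, 0 ≤ f a) →
    (∀ a, f a ≤ Fm) → (∀ a, 0 ≤ T a) → ∑ a, T a ^ (2 * r) ≤ ka * g ^ r → 0 ≤ g → 0 ≤ ka →
    0 < θ → 0 ≤ ρ → Fm * ka ≤ θ * ρ ^ (2 * r) →
    ∑ a, f a * T a ≤ ρ * (∑ a, f a + θ) * Real.sqrt g

/-- FAM: a family of terms -/
def S_FAM : Prop :=
  ∀ (X Y ι : Type) [Fintype X] [Fintype Y] [Fintype ι] (r : ℕ) (f : ι → Y → ℝ) (T : ι → Y → ℝ)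
    (g : ι → X → ℝ) (m ka W S : ℝ) (A : Finset Y), 1 ≤ r → 1 ≤ m → 0 ≤ ka → 0 < W → 1 ≤ S →
    (∀ i a, 0 ≤ f i a) → (∀ i a, f i a ≤ m) → (∀ i a, a ∉ A → f i a = 0) →
    (∀ i a, 0 ≤ T i a) → (∀ i x, 0 ≤ g i x) → (∀ i x, g i x ≤ 1) →
    (∀ i, ∑ a, T i a ^ (2 * r) ≤ ka * (∑ x, g i x ^ 2) ^ r) →
    (Fintype.card ι : ℝ) ≤ W → (∀ a, ∑ i, f i a ≤ S) → (∀ a x, ∑ i, f i a * g i x ≤ 2 * m) →
    (∑ i, ∑ a, f i a * T i a) ^ (2 * r) * A.card ≤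
      m * ka * W * ((A.card : ℝ) ^ 2 * Fintype.card X * (6 * m * S)) ^ r

/-- ABS: `S_FAM → S_ABS`. `X` = points, `Y` = formulas, `C` = possible clauses, `K` = kernel,
`inF a c` = the clause `c` is in the formula `a`, `sat c x` = `x` satisfies `c`. -/
def S_ABS : Prop :=
  ∀ (X Y C : Type) [Fintype X] [Fintype Y] [Fintype C] (K : Y → X → ℝ) (ka : ℝ) (r : ℕ)
    (inF : Y → C → Prop) (sat : C → X → Prop),
    1 ≤ r → 0 ≤ ka → (∀ a, ∑ x, K a x = Fintype.card X) →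
    (∀ g : X → ℝ, (∀ x, 0 ≤ g x) → ∃ T : Y → ℝ, (∀ a, 0 ≤ T a) ∧
      (∀ a, -(T a) ≤ ∑ x, g x * K a x) ∧ ∑ a, T a ^ (2 * r) ≤ ka * (∑ x, g x ^ 2) ^ r) →
    (∀ (c : C) (g : X → ℝ), (∀ x, 0 ≤ g x) → (∀ x, g x ≠ 0 → ¬ sat c x) → ∃ T : Y → ℝ,
      (∀ a, 0 ≤ T a) ∧ (∀ a, inF a c → |∑ x, g x * K a x| ≤ T a) ∧
      ∑ a, T a ^ (2 * r) ≤ ka * (∑ x, g x ^ 2) ^ r) →
    ∀ (M : ℕ) (A : Finset Y) (J : Y → Finset (Fin M)) (cell : Fin M → Set X) (q : Fin M → ℕ)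
      (sl : (j : Fin M) → Fin (q j) → X → ℝ) (lam : Y → (j : Fin M) → Fin (q j) → ℝ)
      (lam0 : Y → Fin M → ℝ) (ls : Fin M → C → X → ℝ) (de S : ℝ) (F : Y → Finset C),
      0 < de → 0 ≤ S → (∀ a c, c ∈ F a ↔ inF a c) →
      (∀ a ∈ A, ∀ x, ∃ j ∈ J a, x ∈ cell j) →
      (∀ a ∈ A, ∀ j ∈ J a, ∀ j' ∈ J a, j ≠ j' → Disjoint (cell j) (cell j')) →
      (∀ j i, ∀ x ∈ cell j, 0 ≤ sl j i x) → (∀ a j i, 0 ≤ lam a j i) → (∀ a j, 0 ≤ lam0 a j) →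
      (∀ j c, ∀ x ∈ cell j, |ls j c x| ≤ 1) → (∀ j c, ∀ x ∈ cell j, sat c x → ls j c x ≤ 0) →
      (∀ a ∈ A, ∀ j ∈ J a, ∀ x ∈ cell j,
        ∑ c ∈ F a, ls j c x - de = lam0 a j + ∑ i, lam a j i * sl j i x) →
      (∀ a ∈ A, ∑ j ∈ J a, ((q j : ℝ) + 1) ≤ S) →
      de ^ (2 * r) * A.card * (Fintype.card X : ℝ) ^ r ≤
        4 * (Fintype.card C : ℝ) ^ 2 * ka * (∑ j, ((q j : ℝ) + 1)) *
          (24 * (Fintype.card C : ℝ) ^ 2 * S) ^ r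

/-! ## assembly -/

/-- the core inequality; `b = (4E+1)(L+1)` bits per block, width `b kk E` -/
def S_CORE : Prop :=
  ∀ (E L r n B : ℕ), 16 ≤ E → 3 ≤ L → 1 ≤ r → 2 ^ (2 * r + 1) * (2 * r).factorial ≤ 2 ^ (4 * E) →
    2 * kk E ≤ B → B * ((4 * E + 1) * (L + 1)) ≤ n →
    ∃ (Y : ℕ) (m : Fin Y → ℕ) (phi : (a : Fin Y) → Fin (m a) → Clause n), 0 < Y ∧
      (∀ a, 1 ≤ m a ∧ m a ≤ 4 * E * B * 2 ^ ((4 * E + 1) * (L + 1) * kk E) ∧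
        (∀ i, (phi a i).card = (4 * E + 1) * (L + 1) * kk E ∧
          ((phi a i).image Prod.fst).card = (4 * E + 1) * (L + 1) * kk E) ∧
        ∀ x, (1 - 1 / (E : ℝ)) * ((m a : ℝ) / 2 ^ ((4 * E + 1) * (L + 1) * kk E)) ≤
          (viol (phi a) x : ℝ)) ∧
      ∀ (M : ℕ) (P : Fin M → Relax n) (A : Finset (Fin Y)) (de S : ℝ), 0 < de → 0 ≤ S →
        (∀ a ∈ A, RefutedBy P (phi a) de S) →
        de ^ (2 * r) * A.card * 2 ^ (4 * E * r * (L - 3) * (B - 8 * (B / E))) ≤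
          4 * (4 * E * B * 2 ^ ((4 * E + 1) * (L + 1) * kk E)) ^ 2 *
            2 ^ (2 * r * B * (8 * E + 3) + B) * (∑ j, (((P j).size : ℝ) + 1)) *
            (24 * (4 * E * B * 2 ^ ((4 * E + 1) * (L + 1) * kk E)) ^ 2 * S) ^ r * Y

/-- PARM: choice of the parameters -/
def S_PARM : Prop :=
  ∀ C ε : ℝ, 0 < ε → ∃ (E L r K : ℕ) (γ : ℝ), 16 ≤ E ∧ 3 ≤ L ∧ 1 ≤ r ∧
    2 ^ (2 * r + 1) * (2 * r).factorial ≤ 2 ^ (4 * E) ∧ 1 / (E : ℝ) ≤ ε ∧ 0 < γ ∧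
    ∃ n₀ : ℕ, ∀ n : ℕ, n₀ ≤ n → ∃ B : ℕ, 2 * kk E ≤ B ∧ B * ((4 * E + 1) * (L + 1)) ≤ n ∧
      4 * E * B * 2 ^ ((4 * E + 1) * (L + 1) * kk E) ≤ K * n ∧
      ∀ (W N Y : ℝ), 0 ≤ Y → 0 ≤ W → W ≤ (2 : ℝ) ^ (C * n) →
        ((2 : ℝ) ^ (-(γ * n))) ^ (2 * r) * N * 2 ^ (4 * E * r * (L - 3) * (B - 8 * (B / E))) ≤
          4 * (4 * E * B * 2 ^ ((4 * E + 1) * (L + 1) * kk E)) ^ 2 *
            2 ^ (2 * r * B * (8 * E + 3) + B) * W *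
            (24 * (4 * E * B * 2 ^ ((4 * E + 1) * (L + 1) * kk E)) ^ 2 *
              (2 : ℝ) ^ ((1 - ε) * n)) ^ r * Y →
        N ≤ (2 : ℝ) ^ (-(γ * n)) * Y

/-- FIN: `S_CORE → S_PARM → StatementA` (helper91). PADA: padding of the clauses, adapt
`Pool.Agent.H78.KX.pf_PAD` -/
def S_PADA : Prop :=
  ∀ (w k : ℕ) (ε c c' C C' : ℝ), w ≤ k → c' < c → C' < C → HardA w ε c C → HardA k ε c' C'

/-- MONO: the fixed family is the case `C = c` -/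
def S_MONO : Prop :=
  ∀ (k : ℕ) (ε c : ℝ), Pool.Agent.H96.KX.Hard k ε c → HardA k ε c c

/-- LIMA: `S_PADA → S_MONO → S_LIMA`, adapt `Pool.Agent.H77.KX.pf_LIM` -/
def S_LIMA : Prop :=
  StatementA → (∀ ε : ℝ, 0 < ε → ∃ c : ℝ, 0 < c ∧ Pool.Agent.H96.KX.Hard 3 ε c) → Statement3

end Pool.Agent.H91.AV
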